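import Mathlib

open MeasureTheory Filter Set
open scoped Topology

namespace Pool.Agent.Results.MP_0a3467_an.NoQ2

/-- a multiplicative action: invertible measure-preserving maps `T n`, `n ≥ 1`, with `T 1 = id`
and `T (m n) = T m ∘ T n` -/
def MAct {X : Type} [MeasurableSpace X] (μ : Measure X) (T : ℕ → Equiv.Perm X) : Prop :=
  T 1 = 1 ∧ (∀ m n, 1 ≤ m → 1 ≤ n → T (m * n) = T m * T n) ∧
    ∀ n, 1 ≤ n → MeasurePreserving (T n) μ μ ∧ MeasurePreserving ((T n)⁻¹ : Equiv.Perm X) μ μ

abbrev Om : Type := ℤ → ZMod 2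

abbrev XX : Type := UnitAddCircle × Om

noncomputable def nu : Measure Om := Measure.addHaarMeasure ⊤

instance : nu.IsAddHaarMeasure := by unfold nu; infer_instance

instance : IsProbabilityMeasure nu :=
  ⟨by simpa [nu] using Measure.addHaarMeasure_self (G := Om) (K₀ := ⊤)⟩

instance : IsProbabilityMeasure (volume : Measure UnitAddCircle) := ⟨UnitAddCircle.measure_univ⟩

noncomputable abbrev mu : Measure XX := volume.prod nu

noncomputable def r (x : UnitAddCircle) : ℝ := AddCircle.equivIco 1 0 x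

theorem r_meas : Measurable r :=
  measurable_subtype_coe.comp (AddCircle.measurableEquivIco 1 0).measurable

theorem r_coe (s : ℝ) : r (s : UnitAddCircle) = Int.fract s := by
  simp [r, AddCircle.coe_equivIco_mk_apply]

theorem r_add (x : UnitAddCircle) (t : ℝ) : r (x + t) = Int.fract (r x + t) := by
  induction x using QuotientAddGroup.induction_on with
  | H s =>
    rw [← AddCircle.coe_add, r_coe, r_coe, Int.fract_eq_fract]
    exact ⟨⌊s⌋, by rw [Int.fract]; ring⟩

theorem r_mem (x : UnitAddCircle) : 0 ≤ r x ∧ r x < 1 := by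
  simpa [r] using (AddCircle.equivIco 1 0 x).2

noncomputable def F0 (t : ℝ) (p : XX) : XX := (p.1 + t, fun i => p.2 (i + ⌊r p.1 + t⌋))

theorem F0_F0 (t u : ℝ) (p : XX) : F0 t (F0 u p) = F0 (t + u) p := by
  simp only [F0, Prod.ext_iff, r_add, AddCircle.coe_add]
  refine ⟨by abel, funext fun i => ?_⟩
  congr 1
  rw [Int.fract, show r p.1 + u - ⌊r p.1 + u⌋ + t = r p.1 + (t + u) - ⌊r p.1 + u⌋ by ring,
    Int.floor_sub_intCast]
  ring_nf

theorem F0_zero (p : XX) : F0 0 p = p := by
  simp [F0, Int.floor_eq_zero_iff.2 (r_mem p.1)]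

noncomputable def F : Multiplicative ℝ →* Equiv.Perm XX :=
  MonoidHom.toHomPerm
    { toFun := fun k => F0 k.toAdd
      map_one' := funext F0_zero
      map_mul' := fun _ _ => funext fun p => (F0_F0 _ _ p).symm }

def sh (k : ℤ) : Om →+ Om where
  toFun w := fun i => w (i + k)
  map_zero' := rfl
  map_add' _ _ := rfl

theorem F_mp (t : ℝ) : MeasurePreserving (F0 t) mu mu := by
  refine MeasurePreserving.skew_product (measurePreserving_add_right volume (t : UnitAddCircle))
    (g := fun (x : UnitAddCircle) (w : Om) => fun i => w (i + ⌊r x + t⌋)) ?_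
    (Eventually.of_forall fun x => ?_)
  · refine measurable_pi_lambda _ fun i => ?_
    have h1 : Measurable fun q : Om × ℤ => q.1 q.2 :=
      measurable_from_prod_countable_left fun j => measurable_pi_apply j
    have h2 : Measurable fun q : XX => i + ⌊r q.1 + t⌋ :=
      (((r_meas.comp measurable_fst).add_const t).floor).const_add i
    exact h1.comp (measurable_snd.prodMk h2)
  · exact ((sh ⌊r x + t⌋).measurePreserving (μ := nu) (ν := nu)
      (continuous_pi fun i => continuous_apply _)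
      (fun w => ⟨fun i => w (i - ⌊r x + t⌋), funext fun i => by simp [sh]⟩) rfl).map_eq

noncomputable def S (n : ℕ) : Equiv.Perm XX := F (.ofAdd (Real.logb 2 n))

theorem S_act : MAct mu S := by
  refine ⟨by simp [S], fun m n hm hn => ?_, fun n _ => ⟨F_mp _, ?_⟩⟩
  · rw [S, S, S, ← map_mul, ← ofAdd_add, Nat.cast_mul,
      Real.logb_mul (by positivity) (by positivity)]
  · rw [S, ← map_inv]; exact F_mp _

def ee : XX := (0, fun i => if i = 0 ∨ i = 1 then 0 else 1)

noncomputable def P : Equiv.Perm XX := Equiv.addRight ee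

noncomputable def S' (n : ℕ) : Equiv.Perm XX := P⁻¹ * S n * P

theorem S'_act : MAct mu S' := by
  have h1 : MeasurePreserving P mu mu := measurePreserving_add_right mu ee
  have h2 : MeasurePreserving (P⁻¹ : Equiv.Perm XX) mu mu := measurePreserving_add_right mu (-ee)
  refine ⟨by simp [S', S_act.1], fun m n hm hn => by simp [S', S_act.2.1 m n hm hn, mul_assoc],
    fun n hn => ⟨(h2.comp (S_act.2.2 n hn).1).comp h1, ?_⟩⟩
  rw [S', mul_inv_rev, mul_inv_rev, inv_inv]
  exact h2.comp ((S_act.2.2 n hn).2.comp h1)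

def AA : Set XX := {p | p.2 0 = 0 ∧ p.2 1 = 0}

theorem AA_open : IsOpen AA :=
  ((isOpen_discrete {0}).preimage ((continuous_apply 0).comp continuous_snd)).inter
    ((isOpen_discrete {0}).preimage ((continuous_apply 1).comp continuous_snd))

theorem disj {m n : ℕ} (hm : 1 ≤ m) (hn : 1 ≤ n) {p : XX} (h1 : S (m + n) p ∈ AA)
    (h2 : S' (m + 2 * n) p ∈ AA) : False := by
  obtain ⟨r0, r1⟩ := r_mem p.1
  have hm' : (1 : ℝ) ≤ m := by exact_mod_cast hm
  have hn' : (1 : ℝ) ≤ n := by exact_mod_cast hn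
  have l1 : 1 ≤ Real.logb 2 (m + n : ℕ) := by
    rw [Real.le_logb_iff_rpow_le one_lt_two (by positivity)]; push_cast; simp; linarith
  have l2 : Real.logb 2 (m + n : ℕ) ≤ Real.logb 2 (m + 2 * n : ℕ) :=
    Real.logb_le_logb_of_le one_lt_two (by positivity) (by push_cast; linarith)
  have l3 : Real.logb 2 (m + 2 * n : ℕ) ≤ Real.logb 2 (m + n : ℕ) + 1 := by
    rw [← Real.logb_self_eq_one (b := 2) one_lt_two, ← Real.logb_mul (by positivity) two_ne_zero]
    exact Real.logb_le_logb_of_le one_lt_two (by positivity) (by push_cast; linarith)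
  set k := ⌊r p.1 + Real.logb 2 (m + n : ℕ)⌋ with hk
  set k' := ⌊r p.1 + Real.logb 2 (m + 2 * n : ℕ)⌋ with hk'
  have k1 : 1 ≤ k := Int.le_floor.2 (by push_cast at l1 ⊢; linarith)
  have k2 : k ≤ k' := Int.floor_le_floor (by linarith)
  have k3 : k' ≤ k + 1 := by rw [hk, ← Int.floor_add_one]; exact Int.floor_le_floor (by linarith)
  have a1 : p.2 (1 + k) = 0 := h1.2
  have a2 : ∀ i, (S' (m + 2 * n) p).2 i = p.2 (i + k') + ee.2 (i + k') - ee.2 i := by
    intro i
    change (F0 _ (p + ee) + -ee).2 i = _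
    simp [F0, hk', ee, sub_eq_add_neg]
  have a3 : ee.2 (1 + k) = 1 := if_neg (by omega)
  rcases (by omega : k' = k ∨ k' = k + 1) with e | e
  · have := h2.2
    rw [a2, e, a1, a3] at this
    simp [ee] at this
  · have := h2.1
    rw [a2, e, zero_add, add_comm k, a1, a3] at this
    simp [ee] at this

theorem result : ∃ (X : Type) (_ : MeasurableSpace X) (_ : StandardBorelSpace X) (μ : Measure X)
    (_ : IsProbabilityMeasure μ) (T : Fin 3 → ℕ → Equiv.Perm X), (∀ j, MAct μ (T j)) ∧
    ∃ A : Set X, MeasurableSet A ∧ 0 < μ A ∧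
      (∀ m n : ℕ, 1 ≤ m → 1 ≤ n → ⋂ j : Fin 3, T j (m + j * n) ⁻¹' A = ∅) ∧
      liminf (fun N : ℕ => (∑ m ∈ Finset.Icc 1 N, ∑ n ∈ Finset.Icc 1 N,
        μ.real (⋂ j : Fin 3, T j (m + j * n) ⁻¹' A)) / (N : ℝ) ^ 2) atTop = 0 := by
  have s1 : StandardBorelSpace UnitAddCircle := standardBorel_of_polish
  have s3 : StandardBorelSpace (ZMod 2) := inferInstance
  have s2 : StandardBorelSpace Om := StandardBorelSpace.pi_countable
  have sb : StandardBorelSpace XX := StandardBorelSpace.prod
  have H : ∀ m n : ℕ, 1 ≤ m → 1 ≤ n →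
      ⋂ j : Fin 3, (![S, S, S'] : Fin 3 → ℕ → Equiv.Perm XX) j (m + j * n) ⁻¹' AA = ∅ := by
    intro m n hm hn
    refine eq_empty_of_forall_notMem fun p hp => ?_
    rw [mem_iInter] at hp
    exact disj hm hn (by simpa using hp 1) (by simpa using hp 2)
  refine ⟨XX, _, sb, mu, inferInstance, ![S, S, S'], fun j => ?_, AA, AA_open.measurableSet,
    AA_open.measure_pos _ ⟨0, rfl, rfl⟩, H, ?_⟩
  · fin_cases j
    exacts [S_act, S_act, S'_act]
  · refine Tendsto.liminf_eq (tendsto_const_nhds.congr fun N => ?_)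
    rw [Finset.sum_eq_zero, zero_div]
    refine fun m hm => Finset.sum_eq_zero fun n hn => ?_
    rw [H m n (Finset.mem_Icc.1 hm).1 (Finset.mem_Icc.1 hn).1, measureReal_empty]

end Pool.Agent.Results.MP_0a3467_an.NoQ2
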